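import Mathlib

set_option autoImplicit false

/-!
# The convolution algebra of a discrete group as a Banach algebra
-/

namespace Pool.Agent.H640R3.CD

open Filter Topology

noncomputable section

/-- the space of absolutely summable functions -/
abbrev L (G : Type) := lp (fun _ : G => ℂ) 1

section basic

variable {G : Type}

open Classical in
/-- the unit vectors -/
def e (s : G) : L G := lp.single 1 s (1 : ℂ)

open Classical in
lemma e_apply (s t : G) : e s t = if t = s then 1 else 0 := by
  unfold e
  rw [lp.single_apply]
  by_cases h : t = s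
  · subst h
    simp
  · rw [Pi.single_eq_of_ne h, if_neg h]

lemma norm_e (s : G) : ‖e s‖ = 1 := by
  classical
  unfold e
  rw [lp.norm_single (by norm_num)]
  simp

lemma norm_hasSum (F : L G) : HasSum (fun s => ‖F s‖) ‖F‖ := by
  have := lp.hasSum_norm (p := 1) (by simp) F
  simpa using this

lemma hasSum_e (F : L G) : HasSum (fun s => F s • e s) F := by
  classical
  have := lp.hasSum_single (p := 1) (by simp) F
  convert this using 2 with s
  unfold e
  rw [← lp.single_smul]
  simp

theorem ext_L {E : Type*} [NormedAddCommGroup E] [NormedSpace ℂ E] {A B : L G →L[ℂ] E}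
    (h : ∀ s, A (e s) = B (e s)) : A = B := by
  ext F
  have h1 := (hasSum_e F).mapL A
  have h2 := (hasSum_e F).mapL B
  simp only [map_smul, h] at h1 h2
  exact h1.unique h2

lemma summable_L1 (f : L G) : Summable fun x => ‖f x‖ := (norm_hasSum f).summable

lemma memL1 {f : G → ℂ} (h : Summable fun x => ‖f x‖) : Memℓp f (1 : ENNReal) := by
  rw [memℓp_gen_iff (by simp)]
  simpa using h

/-- the element of the space with given values -/
def mk (f : G → ℂ) (h : Summable fun x => ‖f x‖) : L G := ⟨f, memL1 h⟩

lemma mk_apply (f : G → ℂ) (h : Summable fun x => ‖f x‖) (x : G) : mk f h x = f x := rfl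

lemma norm_eq (f : L G) : ‖f‖ = ∑' x, ‖f x‖ := (norm_hasSum f).tsum_eq.symm

section lift

variable {E : Type*} [NormedAddCommGroup E] [NormedSpace ℂ E] [CompleteSpace E]

open Classical in
/-- extension of a bounded family of vectors to a linear map -/
def lift (v : G → E) : L G →L[ℂ] E :=
  if h : ∀ s, ‖v s‖ ≤ 1 then
    LinearMap.mkContinuous
      { toFun := fun F => ∑' s, F s • v s
        map_add' := fun F H => by
          have hs : ∀ F : L G, Summable fun s => F s • v s := fun F =>
            Summable.of_norm_bounded (norm_hasSum F).summable fun s => by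
              rw [norm_smul]
              exact mul_le_of_le_one_right (norm_nonneg _) (h s)
          rw [← (hs F).tsum_add (hs H)]
          congr 1
          funext s
          rw [← add_smul]
          rfl
        map_smul' := fun c F => by
          have hs : ∀ F : L G, Summable fun s => F s • v s := fun F =>
            Summable.of_norm_bounded (norm_hasSum F).summable fun s => by
              rw [norm_smul]
              exact mul_le_of_le_one_right (norm_nonneg _) (h s)
          rw [RingHom.id_apply, ← (hs F).tsum_const_smul c]
          congr 1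
          funext s
          rw [← smul_assoc]
          rfl }
      1 (fun F => by
        rw [one_mul]
        change ‖∑' s, F s • v s‖ ≤ ‖F‖
        refine tsum_of_norm_bounded (norm_hasSum F) fun s => ?_
        rw [norm_smul]
        exact mul_le_of_le_one_right (norm_nonneg _) (h s))
  else 0

lemma lift_apply {v : G → E} (h : ∀ s, ‖v s‖ ≤ 1) (F : L G) : lift v F = ∑' s, F s • v s := by
  unfold lift
  rw [dif_pos h]
  rfl

lemma lift_e {v : G → E} (h : ∀ s, ‖v s‖ ≤ 1) (s : G) : lift v (e s) = v s := by
  rw [lift_apply h, tsum_eq_single s]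
  · rw [e_apply, if_pos rfl, one_smul]
  · intro t ht
    rw [e_apply, if_neg ht, zero_smul]

lemma norm_lift_le (v : G → E) : ‖lift v‖ ≤ 1 := by
  unfold lift
  split_ifs with h
  · exact LinearMap.mkContinuous_norm_le _ zero_le_one _
  · simp

lemma lift_hasSum {v : G → E} (h : ∀ s, ‖v s‖ ≤ 1) (F : L G) :
    HasSum (fun s => F s • v s) (lift v F) := by
  rw [lift_apply h]
  refine (Summable.of_norm_bounded (norm_hasSum F).summable fun s => ?_).hasSum
  rw [norm_smul]
  exact mul_le_of_le_one_right (norm_nonneg _) (h s)

end lift

/-- evaluation as a continuous functional -/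
def ev (x : G) : L G →L[ℂ] ℂ :=
  LinearMap.mkContinuous
    { toFun := fun F => F x
      map_add' := fun _ _ => rfl
      map_smul' := fun _ _ => rfl } 1 (fun F => by
        rw [one_mul]
        exact lp.norm_apply_le_norm one_ne_zero F x)

lemma ev_apply (x : G) (F : L G) : ev x F = F x := rfl

end basic

section grp

variable {G : Type} [Group G]

/-- left translation -/
def tr (g : G) : L G →L[ℂ] L G := lift (fun s => e (g * s))

lemma tr_e (g h : G) : tr g (e h) = e (g * h) := lift_e (fun _ => (norm_e _).le) h

/-- convolution as a bilinear map -/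
def mulL : L G →L[ℂ] (L G →L[ℂ] L G) := lift (fun g => tr g)

lemma norm_tr_le (g : G) : ‖tr g‖ ≤ 1 := norm_lift_le _

lemma mulL_e (g : G) : mulL (e g) = tr g := lift_e (fun g => norm_tr_le g) g

instance instMulL : Mul (L G) := ⟨fun a b => mulL a b⟩

instance instOneL : One (L G) := ⟨e 1⟩

lemma mul_def (a b : L G) : a * b = mulL a b := rfl

lemma one_def : (1 : L G) = e 1 := rfl

lemma e_mul_e (g h : G) : (e g : L G) * e h = e (g * h) := by
  rw [mul_def, mulL_e, tr_e]

lemma mul_assoc_aux (a b c : L G) : a * b * c = a * (b * c) := by
  -- fix b, c and vary a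
  have h3 : ∀ g h : G, ∀ c : L G, (e g * e h : L G) * c = e g * (e h * c) := by
    intro g h c
    have : mulL (e g * e h : L G) = (mulL (e g)).comp (mulL (e h)) := by
      apply ext_L
      intro s
      rw [e_mul_e, ContinuousLinearMap.comp_apply, mulL_e, mulL_e, mulL_e, tr_e, tr_e, tr_e,
        mul_assoc]
    rw [mul_def, this]
    rfl
  have h2 : ∀ g : G, ∀ b c : L G, (e g * b : L G) * c = e g * (b * c) := by
    intro g b c
    have : (mulL.flip c).comp (mulL (e g)) = (mulL (e g)).comp (mulL.flip c) := by
      apply ext_L
      intro s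
      exact h3 g s c
    have := congrArg (fun T : L G →L[ℂ] L G => T b) this
    exact this
  have : (mulL.flip c).comp (mulL.flip b) = mulL.flip (b * c) := by
    apply ext_L
    intro s
    exact h2 s b c
  have := congrArg (fun T : L G →L[ℂ] L G => T a) this
  exact this

instance instRingL : Ring (L G) :=
  { (inferInstance : AddCommGroup (L G)), instMulL, instOneL with
    left_distrib := fun a b c => by
      change mulL a (b + c) = mulL a b + mulL a c
      exact map_add _ _ _
    right_distrib := fun a b c => by
      change mulL (a + b) c = mulL a c + mulL b c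
      rw [map_add]
      rfl
    zero_mul := fun a => by
      change mulL 0 a = 0
      rw [map_zero]
      rfl
    mul_zero := fun a => by
      change mulL a 0 = 0
      exact map_zero _
    mul_assoc := mul_assoc_aux
    one_mul := fun a => by
      change mulL (e 1) a = a
      have : mulL (e (1 : G)) = ContinuousLinearMap.id ℂ (L G) := by
        apply ext_L
        intro s
        rw [mulL_e, tr_e, one_mul]
        rfl
      rw [this]
      rfl
    mul_one := fun a => by
      change mulL a (e 1) = a
      have : mulL.flip (e (1 : G)) = ContinuousLinearMap.id ℂ (L G) := by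
        apply ext_L
        intro s
        rw [ContinuousLinearMap.flip_apply, mulL_e, tr_e, mul_one]
        rfl
      have := congrArg (fun T : L G →L[ℂ] L G => T a) this
      exact this }

instance instNormedRingL : NormedRing (L G) :=
  { (inferInstance : NormedAddCommGroup (L G)), instRingL with
    dist_eq := fun a b => dist_eq_norm_neg_add a b
    norm_mul_le := fun a b => by
      change ‖mulL a b‖ ≤ ‖a‖ * ‖b‖
      calc ‖mulL a b‖ ≤ ‖(mulL : L G →L[ℂ] (L G →L[ℂ] L G))‖ * ‖a‖ * ‖b‖ :=
            ContinuousLinearMap.le_opNorm₂ _ _ _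
        _ ≤ 1 * ‖a‖ * ‖b‖ := by
            gcongr
            exact norm_lift_le _
        _ = ‖a‖ * ‖b‖ := by rw [one_mul] }

instance instNormOneClassL : NormOneClass (L G) := ⟨norm_e 1⟩

instance instAlgebraL : Algebra ℂ (L G) :=
  Algebra.ofModule
    (fun r a b => by
      change mulL (r • a) b = r • mulL a b
      rw [map_smul]
      rfl)
    (fun r a b => by
      change mulL a (r • b) = r • mulL a b
      exact map_smul _ _ _)

instance instNormedAlgebraL : NormedAlgebra ℂ (L G) :=
  { instAlgebraL with
    norm_smul_le := fun r x => (norm_smul r x).le }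

lemma tr_apply (g : G) (H : L G) (x : G) : tr g H x = H (g⁻¹ * x) := by
  have h1 : HasSum (fun s => H s • e (g * s)) (tr g H) :=
    lift_hasSum (fun _ => (norm_e _).le) H
  have h2 := h1.mapL (ev x)
  have h3 : HasSum (fun s => ev x (H s • e (g * s))) (H (g⁻¹ * x)) := by
    have : ∀ s, s ≠ g⁻¹ * x → ev x (H s • e (g * s)) = 0 := by
      intro s hs
      rw [map_smul, ev_apply, e_apply, if_neg, smul_zero]
      intro h
      apply hs
      rw [h]
      group
    have h4 := hasSum_single (g⁻¹ * x) this
    rw [map_smul, ev_apply, e_apply, if_pos (by group), smul_eq_mul, mul_one] at h4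
    exact h4
  exact h2.unique h3

lemma mul_hasSum (a b : L G) (x : G) : HasSum (fun y => a y * b (y⁻¹ * x)) ((a * b) x) := by
  have h1 : HasSum (fun s => a s • tr s) (mulL a) := lift_hasSum (fun g => norm_tr_le g) a
  have h2 := h1.mapL (ContinuousLinearMap.apply ℂ (L G) b)
  have h3 := h2.mapL (ev x)
  have h4 : (fun y => ev x (ContinuousLinearMap.apply ℂ (L G) b (a y • tr y)))
      = fun y => a y * b (y⁻¹ * x) := by
    funext y
    rw [ContinuousLinearMap.apply_apply, smul_apply, map_smul, ev_apply,
      tr_apply, smul_eq_mul]
  rw [h4] at h3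
  exact h3

lemma mul_apply (a b : L G) (x : G) : (a * b) x = ∑' y, a y * b (y⁻¹ * x) :=
  (mul_hasSum a b x).tsum_eq.symm

end grp

end

end Pool.Agent.H640R3.CD
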