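import Mathlib

set_option autoImplicit false

/-!
# Preliminary sums
-/

namespace Pool.Agent.H640R3.CD

open Filter Topology

noncomputable section

lemma cs_real {ι : Type*} {w b : ι → ℝ} {W V : ℝ} (hw : ∀ i, 0 ≤ w i) (hW : HasSum w W)
    (hV : HasSum (fun i => w i * b i ^ 2) V) :
    ∃ X, HasSum (fun i => w i * b i) X ∧ X ^ 2 ≤ W * V := by
  have hs : Summable (fun i => w i * b i) := by
    refine Summable.of_norm_bounded (hW.summable.add hV.summable) fun i => ?_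
    rw [Real.norm_eq_abs, abs_mul, abs_of_nonneg (hw i)]
    have h1 : |b i| ≤ 1 + b i ^ 2 := by
      rw [← sq_abs]
      nlinarith [sq_nonneg (|b i| - 1), abs_nonneg (b i)]
    nlinarith [hw i]
  obtain ⟨X, hX⟩ := hs
  refine ⟨X, hX, ?_⟩
  have h2 : ∀ t : ℝ, 0 ≤ W * (t * t) + (-2 * X) * t + V := by
    intro t
    have h4 := ((hW.mul_right (t * t)).add (hX.mul_right (-2 * t))).add hV
    have h5 : (fun i => w i * (t * t) + w i * b i * (-2 * t) + w i * b i ^ 2)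
        = fun i => w i * (t - b i) ^ 2 := by
      funext i
      ring
    rw [h5] at h4
    have h6 := h4.nonneg fun i => mul_nonneg (hw i) (sq_nonneg _)
    linarith
  have h5 := discrim_le_zero h2
  unfold discrim at h5
  nlinarith

lemma norm_add_sq_cplx (u v : ℂ) :
    ‖u + v‖ ^ 2 = ‖u‖ ^ 2 + ‖v‖ ^ 2 + 2 * (u * (starRingEnd ℂ) v).re := by
  rw [← Complex.normSq_eq_norm_sq, ← Complex.normSq_eq_norm_sq, ← Complex.normSq_eq_norm_sq,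
    Complex.normSq_add]

lemma sum1 {G : Type} {μ ν : G → ℝ} {V : ℝ} (h0 : ∀ x, 0 ≤ μ x) (hs : HasSum μ 1)
    (h1 : ∀ x, 0 ≤ ν x) (hV : HasSum ν V) :
    HasSum (fun p : G × G => μ p.1 * ν p.2) V := by
  have := hs.mul hV (hs.summable.mul_of_nonneg hV.summable h0 h1)
  rwa [one_mul] at this

lemma sum2 {G : Type} {μ ν : G → ℝ} {V : ℝ} (h0 : ∀ x, 0 ≤ μ x) (hs : HasSum μ 1)
    (h1 : ∀ x, 0 ≤ ν x) (hV : HasSum ν V) :
    HasSum (fun p : G × G => ν p.1 * μ p.2) V := by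
  have := hV.mul hs (hV.summable.mul_of_nonneg hs.summable h1 h0)
  rwa [mul_one] at this

lemma sum3 {G : Type} {u v : G → ℂ} (hu : Summable fun x => ‖u x‖) (hv : Summable fun x => ‖v x‖)
    (h : HasSum v 0) : HasSum (fun p : G × G => (u p.1 * v p.2).re) 0 := by
  have h1 := hu.of_norm.hasSum.mul h (summable_mul_of_summable_norm hu hv)
  rw [mul_zero] at h1
  exact Complex.hasSum_re h1

/-- the kernel -/
def Bk {G : Type} (d₁ d₂ F : G → ℂ) (p : G × G) : ℂ :=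
  (1 / 2 : ℂ) * (d₁ p.1 * F p.2 + F p.1 * d₂ p.2)

lemma Bk_sq {G : Type} {d₁ d₂ F : G → ℂ} (h₁ : ∀ g, ‖d₁ g‖ = 1) (h₂ : ∀ g, ‖d₂ g‖ = 1)
    (μ : G → ℝ) (p : G × G) :
    μ p.1 * μ p.2 * ‖Bk d₁ d₂ F p‖ ^ 2 = (1 / 4) * (μ p.1 * (μ p.2 * ‖F p.2‖ ^ 2)
      + (μ p.1 * ‖F p.1‖ ^ 2) * μ p.2
      + 2 * (((μ p.1 : ℂ) * d₁ p.1 * (starRingEnd ℂ) (F p.1))
          * ((μ p.2 : ℂ) * F p.2 * (starRingEnd ℂ) (d₂ p.2))).re) := by
  unfold Bk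
  have e7 : ‖(1 / 2 : ℂ)‖ = 1 / 2 := by norm_num
  rw [norm_mul, mul_pow, norm_add_sq_cplx, norm_mul, norm_mul, h₁, h₂, e7]
  have e6 : ((μ p.1 : ℂ) * d₁ p.1 * (starRingEnd ℂ) (F p.1))
      * ((μ p.2 : ℂ) * F p.2 * (starRingEnd ℂ) (d₂ p.2))
      = ((μ p.1 * μ p.2 : ℝ) : ℂ) * (d₁ p.1 * F p.2 * (starRingEnd ℂ) (F p.1 * d₂ p.2)) := by
    rw [map_mul]
    push_cast
    ring
  rw [e6, Complex.re_ofReal_mul]
  ring

lemma sumP {G : Type} {d₁ d₂ F : G → ℂ} (h₁ : ∀ g, ‖d₁ g‖ = 1) (h₂ : ∀ g, ‖d₂ g‖ = 1)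
    {μ : G → ℝ} (h0 : ∀ x, 0 ≤ μ x) (hs : HasSum μ 1) {V : ℝ}
    (hV : HasSum (fun x => μ x * ‖F x‖ ^ 2) V) (hF : Summable fun x => ‖(μ x : ℂ) * F x‖)
    (hz : HasSum (fun x => (μ x : ℂ) * F x * (starRingEnd ℂ) (d₂ x)) 0) :
    HasSum (fun p : G × G => μ p.1 * μ p.2 * ‖Bk d₁ d₂ F p‖ ^ 2) (V / 2) := by
  have hnn : ∀ x, 0 ≤ μ x * ‖F x‖ ^ 2 := fun x => mul_nonneg (h0 x) (sq_nonneg _)
  have hn1 : Summable (fun x => ‖(μ x : ℂ) * d₁ x * (starRingEnd ℂ) (F x)‖) := by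
    refine hF.congr fun x => ?_
    rw [norm_mul, norm_mul, norm_mul, Complex.norm_conj, h₁, mul_one]
  have hn2 : Summable (fun x => ‖(μ x : ℂ) * F x * (starRingEnd ℂ) (d₂ x)‖) := by
    refine hF.congr fun x => ?_
    rw [norm_mul _ ((starRingEnd ℂ) (d₂ x)), Complex.norm_conj, h₂, mul_one]
  have e5 := (((sum1 h0 hs hnn hV).add (sum2 h0 hs hnn hV)).add
    ((sum3 hn1 hn2 hz).mul_left 2)).mul_left (1 / 4)
  have e6 : (1 / 4 : ℝ) * (V + V + 2 * 0) = V / 2 := by ring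
  rw [e6] at e5
  have e7 : (fun p : G × G => μ p.1 * μ p.2 * ‖Bk d₁ d₂ F p‖ ^ 2) = _ :=
    funext fun p => Bk_sq h₁ h₂ μ p
  rw [e7]
  exact e5

end

end Pool.Agent.H640R3.CD
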