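import Mathlib

set_option autoImplicit false

/-!
# A factorisation lemma for commuting contractions
-/

namespace Pool.Agent.H640R3.CD

open Filter Topology

noncomputable section

variable {E : Type*} [NormedAddCommGroup E] [NormedSpace ℂ E] [CompleteSpace E]

/-- partial weighted sums -/
def Sm (T : ℕ → (E →L[ℂ] E)) (m : ℕ) : E →L[ℂ] E :=
  ∑ k ∈ Finset.range m, ((1 / 2 : ℂ) ^ (k + 1)) • T k

/-- the inverse of `1 - Sm T m` -/
def Rm (T : ℕ → (E →L[ℂ] E)) (m : ℕ) : E →L[ℂ] E := ∑' n : ℕ, (Sm T m) ^ n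

lemma norm_half (k : ℕ) : ‖((1 / 2 : ℂ) ^ (k + 1))‖ = (1 / 2 : ℝ) ^ (k + 1) := by
  rw [norm_pow]
  norm_num

lemma norm_Sm {T : ℕ → (E →L[ℂ] E)} (hT : ∀ i, ‖T i‖ ≤ 1) (m : ℕ) :
    ‖Sm T m‖ ≤ 1 - (1 / 2 : ℝ) ^ m := by
  have h1 : ‖Sm T m‖ ≤ ∑ k ∈ Finset.range m, (1 / 2 : ℝ) ^ (k + 1) := by
    refine norm_sum_le_of_le _ fun k _ => ?_
    rw [norm_smul, norm_half]
    exact mul_le_of_le_one_right (by positivity) (hT k)
  refine h1.trans (le_of_eq ?_)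
  clear h1
  induction m with
  | zero => simp
  | succ m ih =>
    rw [Finset.sum_range_succ, ih]
    ring

lemma norm_Sm_lt {T : ℕ → (E →L[ℂ] E)} (hT : ∀ i, ‖T i‖ ≤ 1) (m : ℕ) : ‖Sm T m‖ < 1 := by
  have := norm_Sm hT m
  have : (0 : ℝ) < (1 / 2 : ℝ) ^ m := by positivity
  linarith

lemma norm_Rm {T : ℕ → (E →L[ℂ] E)} (hT : ∀ i, ‖T i‖ ≤ 1) (m : ℕ) :
    ‖Rm T m‖ ≤ 2 ^ m := by
  have h1 := tsum_geometric_le_of_norm_lt_one (Sm T m) (norm_Sm_lt hT m)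
  have h2 : ‖(1 : E →L[ℂ] E)‖ ≤ 1 := ContinuousLinearMap.norm_id_le
  have h3 : (1 - ‖Sm T m‖)⁻¹ ≤ 2 ^ m := by
    have h4 := norm_Sm hT m
    have h5 : (1 / 2 : ℝ) ^ m ≤ 1 - ‖Sm T m‖ := by linarith
    have h6 : (0 : ℝ) < (1 / 2 : ℝ) ^ m := by positivity
    calc (1 - ‖Sm T m‖)⁻¹ ≤ ((1 / 2 : ℝ) ^ m)⁻¹ := inv_anti₀ h6 h5
      _ = 2 ^ m := by
        rw [one_div, inv_pow, inv_inv]
  unfold Rm
  linarith

lemma Sm_succ (T : ℕ → (E →L[ℂ] E)) (m : ℕ) :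
    Sm T (m + 1) = Sm T m + ((1 / 2 : ℂ) ^ (m + 1)) • T m := by
  unfold Sm
  rw [Finset.sum_range_succ]

lemma commute_Sm {T : ℕ → (E →L[ℂ] E)} (hc : ∀ i j, Commute (T i) (T j)) (i m : ℕ) :
    Commute (T i) (Sm T m) := by
  unfold Sm
  exact Commute.sum_right _ _ _ fun k _ => (hc i k).smul_right _

lemma commute_Rm {T : ℕ → (E →L[ℂ] E)} (hc : ∀ i j, Commute (T i) (T j)) (i m : ℕ) :
    Commute (T i) (Rm T m) := by
  unfold Rm
  exact Commute.tsum_right _ fun k => (commute_Sm hc i m).pow_right k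

lemma Rm_mul {T : ℕ → (E →L[ℂ] E)} (hT : ∀ i, ‖T i‖ ≤ 1) (m : ℕ) :
    Rm T m * (1 - Sm T m) = 1 := geom_series_mul_neg _ (norm_Sm_lt hT m)

lemma mul_Rm {T : ℕ → (E →L[ℂ] E)} (hT : ∀ i, ‖T i‖ ≤ 1) (m : ℕ) :
    (1 - Sm T m) * Rm T m = 1 := mul_neg_geom_series _ (norm_Sm_lt hT m)

lemma Rm_sub {T : ℕ → (E →L[ℂ] E)} (hT : ∀ i, ‖T i‖ ≤ 1) (hc : ∀ i j, Commute (T i) (T j))
    (m : ℕ) : Rm T (m + 1) - Rm T m
      = ((1 / 2 : ℂ) ^ (m + 1)) • (Rm T (m + 1) * (Rm T m * T m)) := by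
  have h1 : Rm T (m + 1) - Rm T m
      = Rm T (m + 1) * ((1 - Sm T m) - (1 - Sm T (m + 1))) * Rm T m := by
    rw [mul_sub, sub_mul, Rm_mul hT, one_mul, mul_assoc, mul_Rm hT, mul_one]
  rw [h1, Sm_succ, ← commute_Rm hc m m]
  have h2 : (1 - Sm T m) - (1 - (Sm T m + ((1 / 2 : ℂ) ^ (m + 1)) • T m))
      = ((1 / 2 : ℂ) ^ (m + 1)) • T m := by abel
  rw [h2, mul_smul_comm, smul_mul_assoc, mul_assoc]

/-- If `T 0, T 1, …` are commuting contractions and `T m x` is small, then `x = y - ρ y` where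
`ρ = ∑ 2^(-m-1) T m`. -/
theorem fac (T : ℕ → (E →L[ℂ] E)) (hc : ∀ i j, Commute (T i) (T j)) (hT : ∀ i, ‖T i‖ ≤ 1) (x : E)
    (hx : ∀ m, ‖T m x‖ ≤ (1 / 4 : ℝ) ^ (m + 1)) :
    ∃ y : E, HasSum (fun m => ((1 / 2 : ℂ) ^ (m + 1)) • T m y) (y - x) ∧
      ∀ S : Submodule ℂ E, IsClosed (S : Set E) → x ∈ S → (∀ m, ∀ z ∈ S, T m z ∈ S) → y ∈ S := by
  have hd : ∀ m, dist (Rm T m x) (Rm T (m + 1) x) ≤ (1 / 4 : ℝ) * (1 / 2 : ℝ) ^ m := by
    intro m
    rw [dist_comm, dist_eq_norm, ← sub_apply, Rm_sub hT hc]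
    rw [smul_apply, norm_smul, norm_half]
    have h1 : ‖(Rm T (m + 1) * (Rm T m * T m)) x‖ ≤ 2 ^ (m + 1) * (2 ^ m * (1 / 4 : ℝ) ^ (m + 1)) := by
      calc ‖(Rm T (m + 1) * (Rm T m * T m)) x‖ = ‖Rm T (m + 1) (Rm T m (T m x))‖ := rfl
        _ ≤ ‖Rm T (m + 1)‖ * ‖Rm T m (T m x)‖ := ContinuousLinearMap.le_opNorm _ _
        _ ≤ ‖Rm T (m + 1)‖ * (‖Rm T m‖ * ‖T m x‖) := by
            gcongr
            exact ContinuousLinearMap.le_opNorm _ _
        _ ≤ _ := by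
            gcongr
            · exact norm_Rm hT _
            · exact norm_Rm hT _
            · exact hx m
    calc (1 / 2 : ℝ) ^ (m + 1) * ‖(Rm T (m + 1) * (Rm T m * T m)) x‖
        ≤ (1 / 2 : ℝ) ^ (m + 1) * (2 ^ (m + 1) * (2 ^ m * (1 / 4 : ℝ) ^ (m + 1))) := by gcongr
      _ = (1 / 4 : ℝ) * (1 / 2 : ℝ) ^ m := by
        have e1 : (1 / 2 : ℝ) ^ (m + 1) * 2 ^ (m + 1) = 1 := by
          rw [← mul_pow]
          norm_num
        have e2 : (2 : ℝ) ^ m * (1 / 4 : ℝ) ^ (m + 1) = (1 / 4 : ℝ) * (1 / 2 : ℝ) ^ m := by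
          rw [pow_succ, ← mul_assoc, ← mul_pow]
          norm_num
          ring
        rw [← mul_assoc, e1, one_mul, e2]
  have hcau : CauchySeq (fun m => Rm T m x) :=
    cauchySeq_of_le_geometric (1 / 2) (1 / 4) (by norm_num) hd
  obtain ⟨y, hy⟩ := cauchySeq_tendsto_of_complete hcau
  have hsum : Summable (fun k => ((1 / 2 : ℂ) ^ (k + 1)) • T k) := by
    refine Summable.of_norm_bounded (g := fun k => (1 / 2 : ℝ) ^ (k + 1)) ?_ fun k => ?_
    · exact (summable_nat_add_iff 1).2 (summable_geometric_of_lt_one (by norm_num) (by norm_num))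
    · rw [norm_smul, norm_half]
      exact mul_le_of_le_one_right (by positivity) (hT k)
  obtain ⟨ρ, hρ⟩ := hsum
  have hS : Tendsto (fun m => Sm T m) atTop (𝓝 ρ) := hρ.tendsto_sum_nat
  have hSy : Tendsto (fun m => Sm T m (Rm T m x)) atTop (𝓝 (ρ y)) := by
    have := hS.prodMk_nhds hy
    have hcont : Continuous fun p : (E →L[ℂ] E) × E => p.1 p.2 :=
      isBoundedBilinearMap_apply.continuous
    exact (hcont.tendsto (ρ, y)).comp this
  have hxy : y - ρ y = x := by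
    have h1 : Tendsto (fun m => Rm T m x - Sm T m (Rm T m x)) atTop (𝓝 (y - ρ y)) := hy.sub hSy
    have h2 : (fun m => Rm T m x - Sm T m (Rm T m x)) = fun _ => x := by
      funext m
      have := congrArg (fun A : E →L[ℂ] E => A x) (mul_Rm hT m)
      exact this
    rw [h2] at h1
    exact tendsto_nhds_unique h1 tendsto_const_nhds
  refine ⟨y, ?_, ?_⟩
  · have h1 := hρ.mapL (ContinuousLinearMap.apply ℂ E y)
    have h2 : y - x = (ContinuousLinearMap.apply ℂ E y) ρ := by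
      rw [← hxy]
      change y - (y - ρ y) = ρ y
      abel
    rw [h2]
    exact h1
  · intro S hS hxS hTS
    have hSm : ∀ m, ∀ z ∈ S, Sm T m z ∈ S := by
      intro m z hz
      unfold Sm
      rw [sum_apply]
      exact Submodule.sum_mem _ fun k _ => by
        rw [smul_apply]
        exact S.smul_mem _ (hTS k z hz)
    have hpow : ∀ m n, ∀ z ∈ S, ((Sm T m) ^ n) z ∈ S := by
      intro m n
      induction n with
      | zero => intro z hz; simpa using hz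
      | succ n ih =>
        intro z hz
        rw [pow_succ]
        exact ih _ (hSm m z hz)
    have hR : ∀ m, Rm T m x ∈ S := by
      intro m
      have h1 : HasSum (fun n : ℕ => (Sm T m) ^ n) (Rm T m) :=
        (summable_geometric_of_norm_lt_one (norm_Sm_lt hT m)).hasSum
      have h2 := h1.mapL (ContinuousLinearMap.apply ℂ E x)
      refine hS.mem_of_tendsto h2 (Eventually.of_forall fun s => ?_)
      exact Submodule.sum_mem _ fun n _ => hpow m n x hxS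
    exact hS.mem_of_tendsto hy (Eventually.of_forall hR)

end

end Pool.Agent.H640R3.CD
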