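import Mathlib
import Pool.Agent.H640R3.CD.Alg
import Pool.Agent.H640R3.CD.Cs

set_option autoImplicit false

/-!
# The weighted estimate
-/

namespace Pool.Agent.H640R3.CD

open Filter Topology

noncomputable section

/-- `f` has bounded second moment relative to the probability `μ` -/
structure Good {G : Type} (μ : G → ℝ) (f : G → ℂ) (Q : ℝ) : Prop where
  nonneg : ∀ x, 0 ≤ μ x
  sum : HasSum μ 1
  ex : ∃ F : G → ℂ, (∀ x, f x = (μ x : ℂ) * F x) ∧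
    ∃ V ≤ Q, HasSum (fun x => μ x * ‖F x‖ ^ 2) V

lemma Good.norm_sq_le {G : Type} {μ : G → ℝ} {f : L G} {Q : ℝ} (h : Good μ (fun x => f x) Q) :
    ‖f‖ ^ 2 ≤ Q := by
  obtain ⟨F, hF, V, hVQ, hV⟩ := h.ex
  obtain ⟨X, hX, hX2⟩ := cs_real (b := fun x => ‖F x‖) h.nonneg h.sum hV
  have h1 : (fun x => ‖f x‖) = fun x => μ x * ‖F x‖ := by
    funext x
    rw [hF x, norm_mul, Complex.norm_real, Real.norm_eq_abs, abs_of_nonneg (h.nonneg x)]
  have h3 := norm_hasSum f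
  rw [h1] at h3
  rw [h3.unique hX]
  linarith

variable {G : Type} [Group G]

/-- convolution square of `μ` -/
def cv (μ : G → ℝ) (z : G) : ℝ := ∑' y, μ y * μ (y⁻¹ * z)

/-- the bijection `(x, y) ↦ (y, y⁻¹ x)` -/
def shear (G : Type) [Group G] : G × G ≃ G × G where
  toFun p := (p.2, p.2⁻¹ * p.1)
  invFun p := (p.1 * p.2, p.1)
  left_inv p := by ext <;> simp
  right_inv p := by ext <;> simp

lemma hasSum_fiber {P : G × G → ℝ} {s : ℝ} (h : HasSum P s) :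
    HasSum (fun z => ∑' y, P (y, y⁻¹ * z)) s ∧
      ∀ z, HasSum (fun y => P (y, y⁻¹ * z)) (∑' y, P (y, y⁻¹ * z)) := by
  have h1 : HasSum (fun p : G × G => P (shear G p)) s := (shear G).hasSum_iff.2 h
  have h2 : ∀ z, HasSum (fun y => P (y, y⁻¹ * z)) (∑' y, P (y, y⁻¹ * z)) := by
    intro z
    exact (h1.summable.prod_factor z).hasSum
  exact ⟨h1.prod_fiberwise h2, h2⟩

lemma cv_hasSum {μ : G → ℝ} (h0 : ∀ x, 0 ≤ μ x) (h : HasSum μ 1) :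
    HasSum (cv μ) 1 ∧ ∀ z, HasSum (fun y => μ y * μ (y⁻¹ * z)) (cv μ z) := by
  have h1 : HasSum (fun p : G × G => μ p.1 * μ p.2) 1 := sum1 h0 h h0 h
  exact hasSum_fiber h1

lemma cv_nonneg {μ : G → ℝ} (h0 : ∀ x, 0 ≤ μ x) (z : G) : 0 ≤ cv μ z :=
  tsum_nonneg fun _ => mul_nonneg (h0 _) (h0 _)

lemma half_sum {u v : G → ℂ} {s t : ℂ} (hu : HasSum u s) (hv : HasSum v t) :
    HasSum (fun y => (1 / 2 : ℂ) * (u y + v y)) ((1 / 2 : ℂ) * (s + t)) :=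
  (hu.add hv).mul_left _

lemma g_formula {d₁ d₂ F : G → ℂ} {μ : G → ℝ} {a b f : L G} (ha : ∀ x, a x = d₁ x * (μ x : ℂ))
    (hb : ∀ x, b x = d₂ x * (μ x : ℂ)) (hF : ∀ x, f x = (μ x : ℂ) * F x) (z : G) :
    HasSum (fun y => ((μ y * μ (y⁻¹ * z) : ℝ) : ℂ) * Bk d₁ d₂ F (y, y⁻¹ * z))
      (((1 / 2 : ℂ) • (a * f + f * b) : L G) z) := by
  have h3 := half_sum (mul_hasSum a f z) (mul_hasSum f b z)
  have h4 : (fun y => (1 / 2 : ℂ) * (a y * f (y⁻¹ * z) + f y * b (y⁻¹ * z)))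
      = fun y => ((μ y * μ (y⁻¹ * z) : ℝ) : ℂ) * Bk d₁ d₂ F (y, y⁻¹ * z) := by
    funext y
    rw [ha, hb, hF y, hF (y⁻¹ * z)]
    unfold Bk
    push_cast
    ring
  rw [h4] at h3
  exact h3

theorem step {d₁ d₂ : G → ℂ} (h₁ : ∀ g, ‖d₁ g‖ = 1) (h₂ : ∀ g, ‖d₂ g‖ = 1)
    {μ : G → ℝ} {a b f : L G} (ha : ∀ x, a x = d₁ x * (μ x : ℂ))
    (hb : ∀ x, b x = d₂ x * (μ x : ℂ)) {Q : ℝ} (hG : Good μ (fun x => f x) Q)
    (hψ : HasSum (fun x => f x * (starRingEnd ℂ) (d₂ x)) 0) :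
    Good (cv μ) (fun x => ((1 / 2 : ℂ) • (a * f + f * b) : L G) x) (Q / 2) := by
  obtain ⟨F, hF, V, hVQ, hV⟩ := hG.ex
  have h0 := hG.nonneg
  obtain ⟨hcv1, hcv2⟩ := cv_hasSum h0 hG.sum
  have hF' : Summable fun x => ‖(μ x : ℂ) * F x‖ :=
    (summable_L1 f).congr fun x => by rw [hF x]
  have hz : HasSum (fun x => (μ x : ℂ) * F x * (starRingEnd ℂ) (d₂ x)) 0 := by
    have e : (fun x => f x * (starRingEnd ℂ) (d₂ x))
        = fun x => (μ x : ℂ) * F x * (starRingEnd ℂ) (d₂ x) := by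
      funext x
      rw [hF x]
    rwa [e] at hψ
  have hP := sumP h₁ h₂ h0 hG.sum hV hF' hz
  obtain ⟨hS1, hS2⟩ := hasSum_fiber hP
  have hgz := fun z => g_formula ha hb hF z
  generalize ((1 / 2 : ℂ) • (a * f + f * b) : L G) = g at hgz ⊢
  generalize hSdef : (fun z => ∑' y, μ (y, y⁻¹ * z).1 * μ (y, y⁻¹ * z).2
    * ‖Bk d₁ d₂ F (y, y⁻¹ * z)‖ ^ 2) = S at hS1
  have hcs : ∀ z, ‖g z‖ ^ 2 ≤ cv μ z * S z := by
    intro z
    obtain ⟨X, hX, hX2⟩ := cs_real (w := fun y => μ y * μ (y⁻¹ * z))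
      (b := fun y => ‖Bk d₁ d₂ F (y, y⁻¹ * z)‖) (fun y => mul_nonneg (h0 _) (h0 _)) (hcv2 z) (hS2 z)
    have h4 : ‖g z‖ ≤ X := by
      rw [← (hgz z).tsum_eq]
      refine tsum_of_norm_bounded hX fun y => ?_
      rw [norm_mul, Complex.norm_real, Real.norm_eq_abs,
        abs_of_nonneg (mul_nonneg (h0 _) (h0 _))]
    rw [← hSdef]
    calc ‖g z‖ ^ 2 ≤ X ^ 2 := pow_le_pow_left₀ (norm_nonneg _) h4 2
      _ ≤ _ := hX2
  have hS0 : ∀ z, 0 ≤ S z := fun z => by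
    rw [← hSdef]
    exact tsum_nonneg fun y => mul_nonneg (mul_nonneg (h0 _) (h0 _)) (sq_nonneg _)
  have hc0 := cv_nonneg (G := G) h0
  refine ⟨hc0, hcv1, fun z => g z / (cv μ z : ℂ), ?_, ?_⟩
  · intro z
    by_cases hz : cv μ z = 0
    · have h5 := hcs z
      rw [hz, zero_mul] at h5
      have h7 : ‖g z‖ ^ 2 = 0 := le_antisymm h5 (sq_nonneg _)
      have h6 : ‖g z‖ = 0 := (pow_eq_zero_iff (two_ne_zero)).1 h7
      rw [norm_eq_zero] at h6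
      simp only [h6, hz]
      simp
    · have : (cv μ z : ℂ) ≠ 0 := by exact_mod_cast hz
      rw [mul_div_cancel₀ _ this]
  · have hle : ∀ z, cv μ z * ‖g z / (cv μ z : ℂ)‖ ^ 2 ≤ S z := by
      intro z
      by_cases hz : cv μ z = 0
      · rw [hz, zero_mul]
        exact hS0 z
      · have hpos : 0 < cv μ z := lt_of_le_of_ne (hc0 z) (Ne.symm hz)
        rw [norm_div, Complex.norm_real, Real.norm_eq_abs, abs_of_pos hpos, div_pow]
        have h8 : cv μ z * (‖g z‖ ^ 2 / cv μ z ^ 2) = ‖g z‖ ^ 2 / cv μ z := by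
          field_simp
        rw [h8, div_le_iff₀ hpos, mul_comm]
        exact hcs z
    have hnn : ∀ z, 0 ≤ cv μ z * ‖g z / (cv μ z : ℂ)‖ ^ 2 := fun z =>
      mul_nonneg (hc0 z) (sq_nonneg _)
    have hsum : Summable (fun z => cv μ z * ‖g z / (cv μ z : ℂ)‖ ^ 2) :=
      Summable.of_nonneg_of_le hnn hle hS1.summable
    refine ⟨∑' z, cv μ z * ‖g z / (cv μ z : ℂ)‖ ^ 2, ?_, hsum.hasSum⟩
    have h9 : ∑' z, cv μ z * ‖g z / (cv μ z : ℂ)‖ ^ 2 ≤ V / 2 :=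
      hasSum_le hle hsum.hasSum hS1
    linarith

/-- the square of the twisted measure -/
lemma sq_twist {d : G → ℂ} (hd : ∀ g h, d (g * h) = d g * d h) {μ : G → ℝ}
    (h0 : ∀ x, 0 ≤ μ x) (h : HasSum μ 1) {a : L G}
    (ha : ∀ x, a x = d x * (μ x : ℂ)) (z : G) :
    (a * a) z = d z * (cv μ z : ℂ) := by
  have h1 := mul_hasSum a a z
  have h3 := (Complex.hasSum_ofReal.2 ((cv_hasSum h0 h).2 z)).mul_left (d z)
  have h4 : (fun y => a y * a (y⁻¹ * z)) = fun y => d z * ((μ y * μ (y⁻¹ * z) : ℝ) : ℂ) := by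
    funext y
    rw [ha, ha]
    have h5 : d z = d y * d (y⁻¹ * z) := by
      rw [← hd, mul_inv_cancel_left]
    rw [h5]
    push_cast
    ring
  rw [h4] at h1
  exact h1.unique h3

end

end Pool.Agent.H640R3.CD
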