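import Mathlib
import Pool.Agent.H640R3.CD.Fac

set_option autoImplicit false

/-!
# Factorisation with Cesàro means, and the two-sided decomposition
-/

namespace Pool.Agent.H640R3.CD

open Filter Topology

noncomputable section

variable {A : Type*} [NormedRing A] [NormOneClass A] [NormedAlgebra ℂ A] [CompleteSpace A]

/-- Cesàro means of the powers of `a` -/
def kap (a : A) (n : ℕ) : A := ((n : ℂ) + 1)⁻¹ • ∑ k ∈ Finset.range (n + 1), a ^ k

omit [CompleteSpace A] in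
lemma norm_pow_le_one {a : A} (ha : ‖a‖ ≤ 1) (k : ℕ) : ‖a ^ k‖ ≤ 1 :=
  (norm_pow_le a k).trans (pow_le_one₀ (norm_nonneg _) ha)

lemma norm_inv_succ (n : ℕ) : ‖((n : ℂ) + 1)⁻¹‖ = ((n : ℝ) + 1)⁻¹ := by
  rw [norm_inv]
  congr 1
  have : ((n : ℂ) + 1) = (((n : ℝ) + 1 : ℝ) : ℂ) := by push_cast; ring
  rw [this, Complex.norm_real, Real.norm_eq_abs, abs_of_nonneg (by positivity)]

omit [CompleteSpace A] in
lemma norm_kap {a : A} (ha : ‖a‖ ≤ 1) (n : ℕ) : ‖kap a n‖ ≤ 1 := by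
  unfold kap
  rw [norm_smul, norm_inv_succ]
  have h1 : ‖∑ k ∈ Finset.range (n + 1), a ^ k‖ ≤ (n : ℝ) + 1 := by
    refine (norm_sum_le_of_le _ fun k _ => norm_pow_le_one ha k).trans ?_
    simp
  have h2 : (0 : ℝ) < (n : ℝ) + 1 := by positivity
  calc ((n : ℝ) + 1)⁻¹ * ‖∑ k ∈ Finset.range (n + 1), a ^ k‖
      ≤ ((n : ℝ) + 1)⁻¹ * ((n : ℝ) + 1) := by gcongr
    _ = 1 := inv_mul_cancel₀ h2.ne'

omit [NormOneClass A] [CompleteSpace A] in
lemma commute_kap (a : A) (i j : ℕ) : Commute (kap a i) (kap a j) := by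
  unfold kap
  refine Commute.smul_left (Commute.smul_right ?_ _) _
  refine Commute.sum_left _ _ _ fun k _ => Commute.sum_right _ _ _ fun l _ => ?_
  exact (Commute.refl a).pow_pow k l

omit [CompleteSpace A] in
lemma kap_mul_one_sub {a : A} (ha : ‖a‖ ≤ 1) (M n : ℕ) :
    ‖kap a n * (1 - a ^ M)‖ ≤ 2 * M * ((n : ℝ) + 1)⁻¹ := by
  have h1 : (∑ k ∈ Finset.range (n + 1), a ^ k) * (1 - a ^ M)
      = (1 - a ^ (n + 1)) * ∑ k ∈ Finset.range M, a ^ k := by
    rw [← mul_neg_geom_sum a M, ← mul_assoc, geom_sum_mul_neg]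
  unfold kap
  rw [smul_mul_assoc, h1, norm_smul, norm_inv_succ, mul_comm]
  have h2 : ‖(1 - a ^ (n + 1)) * ∑ k ∈ Finset.range M, a ^ k‖ ≤ 2 * M := by
    refine (norm_mul_le _ _).trans ?_
    have h3 : ‖1 - a ^ (n + 1)‖ ≤ 2 := by
      refine (norm_sub_le _ _).trans ?_
      rw [norm_one]
      have := norm_pow_le_one ha (n + 1)
      linarith
    have h4 : ‖∑ k ∈ Finset.range M, a ^ k‖ ≤ M := by
      refine (norm_sum_le_of_le _ fun k _ => norm_pow_le_one ha k).trans ?_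
      simp
    gcongr
  gcongr

omit [NormOneClass A] [CompleteSpace A] in
lemma commute_kap_pow (a : A) (M n : ℕ) : Commute (kap a n) (1 - a ^ M) := by
  refine Commute.sub_right (Commute.one_right _) ?_
  unfold kap
  refine Commute.smul_left ?_ _
  exact Commute.sum_left _ _ _ fun k _ => (Commute.refl a).pow_pow k M

lemma geo_half : HasSum (fun m : ℕ => (1 / 2 : ℂ) * (1 / 2 : ℂ) ^ m) 1 := by
  have hn : ‖(1 / 2 : ℂ)‖ < 1 := by norm_num
  have h1 : HasSum (fun m : ℕ => (1 / 2 : ℂ) ^ m) (1 - 1 / 2)⁻¹ :=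
    hasSum_geometric_of_norm_lt_one hn
  have h2 := h1.mul_left (1 / 2 : ℂ)
  have h3 : (1 / 2 : ℂ) * (1 - 1 / 2)⁻¹ = 1 := by norm_num
  rwa [h3] at h2

/-- the general factorisation statement: `M` is left or right multiplication -/
theorem gen_fac (M : A →L[ℂ] (A →L[ℂ] A)) (hM1 : ∀ u, ‖M u‖ ≤ ‖u‖)
    (hMc : ∀ u v, Commute u v → Commute (M u) (M v)) (a x : A) (ha : ‖a‖ ≤ 1)
    (hx : Tendsto (fun n => M (kap a n) x) atTop (𝓝 0)) :
    ∃ ρ y : A, x = y - M ρ y ∧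
      (∀ ψ : A →L[ℂ] ℂ, (∀ u v, ψ (u * v) = ψ u * ψ v) → ψ 1 = 1 → ψ a = 1 → ψ ρ = 1) ∧
      ∀ S : Submodule ℂ A, IsClosed (S : Set A) → x ∈ S → (∀ c, ∀ z ∈ S, M c z ∈ S) → y ∈ S := by
  have h1 : ∀ m : ℕ, ∃ n : ℕ, ‖M (kap a n) x‖ ≤ (1 / 4 : ℝ) ^ (m + 1) := by
    intro m
    have h2 := (tendsto_zero_iff_norm_tendsto_zero.1 hx).eventually
      (gt_mem_nhds (show (0 : ℝ) < (1 / 4 : ℝ) ^ (m + 1) by positivity))
    obtain ⟨n, hn⟩ := h2.exists
    exact ⟨n, hn.le⟩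
  choose n hn using h1
  obtain ⟨y, hy, hyS⟩ := fac (fun m => M (kap a (n m)))
    (fun i j => hMc _ _ (commute_kap a _ _)) (fun i => (hM1 _).trans (norm_kap ha _)) x hn
  have hsum : Summable (fun m => ((1 / 2 : ℂ) ^ (m + 1)) • kap a (n m)) := by
    refine Summable.of_norm_bounded (g := fun k => (1 / 2 : ℝ) ^ (k + 1)) ?_ fun k => ?_
    · exact (summable_nat_add_iff 1).2 (summable_geometric_of_lt_one (by norm_num) (by norm_num))
    · rw [norm_smul, norm_half]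
      exact mul_le_of_le_one_right (by positivity) (norm_kap ha _)
  obtain ⟨ρ, hρ⟩ := hsum
  refine ⟨ρ, y, ?_, ?_, ?_⟩
  · have h2 := (hρ.mapL M).mapL (ContinuousLinearMap.apply ℂ A y)
    have h3 : (fun m => ContinuousLinearMap.apply ℂ A y (M (((1 / 2 : ℂ) ^ (m + 1)) • kap a (n m))))
        = fun m => ((1 / 2 : ℂ) ^ (m + 1)) • M (kap a (n m)) y := by
      funext m
      rw [map_smul, map_smul]
      rfl
    rw [h3] at h2
    have h4 : M ρ y = y - x := h2.unique hy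
    rw [h4]
    abel
  · intro ψ hψ hψ1 hψa
    have h2 := hρ.mapL ψ
    have h3 : ∀ m, ψ (kap a (n m)) = 1 := by
      intro m
      unfold kap
      rw [map_smul, map_sum]
      have h4 : ∀ k, ψ (a ^ k) = 1 := by
        intro k
        induction k with
        | zero => rw [pow_zero, hψ1]
        | succ k ih => rw [pow_succ, hψ, ih, hψa, one_mul]
      simp only [h4]
      rw [Finset.sum_const, Finset.card_range, nsmul_eq_mul, mul_one, smul_eq_mul]
      push_cast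
      have : ((n m : ℂ) + 1) ≠ 0 := by
        exact_mod_cast (Nat.succ_ne_zero (n m))
      exact inv_mul_cancel₀ this
    have h5 : (fun m => ψ (((1 / 2 : ℂ) ^ (m + 1)) • kap a (n m)))
        = fun m => (1 / 2 : ℂ) * (1 / 2 : ℂ) ^ m := by
      funext m
      rw [map_smul, h3, smul_eq_mul, mul_one, pow_succ, mul_comm]
    rw [h5] at h2
    exact h2.unique geo_half
  · intro S hS hxS hM
    exact hyS S hS hxS fun m z hz => hM _ z hz

/-- left factorisation -/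
theorem left_fac (a x : A) (ha : ‖a‖ ≤ 1) (hx : Tendsto (fun n => kap a n * x) atTop (𝓝 0)) :
    ∃ ρ y : A, x = (1 - ρ) * y ∧
      (∀ ψ : A →L[ℂ] ℂ, (∀ u v, ψ (u * v) = ψ u * ψ v) → ψ 1 = 1 → ψ a = 1 → ψ ρ = 1) ∧
      ∀ S : Submodule ℂ A, IsClosed (S : Set A) → x ∈ S → (∀ c, ∀ z ∈ S, c * z ∈ S) → y ∈ S := by
  obtain ⟨ρ, y, h1, h2, h3⟩ := gen_fac (ContinuousLinearMap.mul ℂ A)
    (fun u => ContinuousLinearMap.opNorm_mul_apply_le ℂ A u) (fun u v huv => by
      ext z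
      change u * (v * z) = v * (u * z)
      rw [← mul_assoc, ← mul_assoc, huv.eq]) a x ha hx
  refine ⟨ρ, y, ?_, h2, h3⟩
  rw [sub_mul, one_mul]
  exact h1

/-- right factorisation -/
theorem right_fac (a x : A) (ha : ‖a‖ ≤ 1) (hx : Tendsto (fun n => x * kap a n) atTop (𝓝 0)) :
    ∃ ρ y : A, x = y * (1 - ρ) ∧
      (∀ ψ : A →L[ℂ] ℂ, (∀ u v, ψ (u * v) = ψ u * ψ v) → ψ 1 = 1 → ψ a = 1 → ψ ρ = 1) ∧
      ∀ S : Submodule ℂ A, IsClosed (S : Set A) → x ∈ S → (∀ c, ∀ z ∈ S, z * c ∈ S) → y ∈ S := by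
  obtain ⟨ρ, y, h1, h2, h3⟩ := gen_fac (ContinuousLinearMap.mul ℂ A).flip
    (fun u => by
      refine ContinuousLinearMap.opNorm_le_bound _ (norm_nonneg _) fun z => ?_
      change ‖z * u‖ ≤ ‖u‖ * ‖z‖
      rw [mul_comm ‖u‖]
      exact norm_mul_le _ _) (fun u v huv => by
      ext z
      change z * v * u = z * u * v
      rw [mul_assoc, mul_assoc, huv.eq]) a x ha hx
  refine ⟨ρ, y, ?_, h2, h3⟩
  rw [mul_sub, mul_one]
  exact h1

omit [NormOneClass A] [CompleteSpace A] in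
lemma tele_step (x p q : A) : (1 / 2 : ℂ) • ((x - p) + (x - q)) = x - (1 / 2 : ℂ) • (p + q) := by
  module

omit [NormOneClass A] [CompleteSpace A] in
lemma tele_step2 (x a b : A) : (1 / 2 : ℂ) • ((1 - a) * x) + (1 / 2 : ℂ) • (x * (1 - b))
    = x - (1 / 2 : ℂ) • (a * x + x * b) := by
  rw [← smul_add, sub_mul, mul_sub, one_mul, mul_one]
  exact tele_step _ _ _

/-- The two-sided decomposition. -/
theorem two_sided (a b : A) (ha : ‖a‖ ≤ 1) (hb : ‖b‖ ≤ 1) (fs : ℕ → A)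
    (hs : ∀ j, fs (j + 1) = (1 / 2 : ℂ) • (a ^ (2 ^ j) * fs j + fs j * b ^ (2 ^ j)))
    (C θ : ℝ) (hθ0 : 0 ≤ θ) (hθ1 : θ < 1) (hn : ∀ j, ‖fs j‖ ≤ C * θ ^ j) :
    ∃ r l : A, fs 0 = r + l ∧ Tendsto (fun n => kap a n * r) atTop (𝓝 0) ∧
      Tendsto (fun n => l * kap b n) atTop (𝓝 0) ∧
      ∀ S : Submodule ℂ A, IsClosed (S : Set A) → fs 0 ∈ S → (∀ c, ∀ z ∈ S, c * z ∈ S) →
        (∀ c, ∀ z ∈ S, z * c ∈ S) → r ∈ S ∧ l ∈ S := by
  have hgeo : Summable (fun j : ℕ => C * θ ^ j) :=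
    (summable_geometric_of_lt_one hθ0 hθ1).mul_left C
  have hfs : Summable (fun j => ‖fs j‖) :=
    Summable.of_nonneg_of_le (fun _ => norm_nonneg _) hn hgeo
  have h1a : ∀ j : ℕ, ‖(1 : A) - a ^ (2 ^ j)‖ ≤ 2 := by
    intro j
    refine (norm_sub_le _ _).trans ?_
    rw [norm_one]
    have := norm_pow_le_one ha (2 ^ j)
    linarith
  have h1b : ∀ j : ℕ, ‖(1 : A) - b ^ (2 ^ j)‖ ≤ 2 := by
    intro j
    refine (norm_sub_le _ _).trans ?_
    rw [norm_one]
    have := norm_pow_le_one hb (2 ^ j)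
    linarith
  have hhalf : ‖(1 / 2 : ℂ)‖ = 1 / 2 := by norm_num
  have hbr : ∀ j, ‖(1 / 2 : ℂ) • ((1 - a ^ (2 ^ j)) * fs j)‖ ≤ ‖fs j‖ := by
    intro j
    rw [norm_smul, hhalf]
    have := (norm_mul_le (1 - a ^ (2 ^ j)) (fs j)).trans
      (mul_le_mul_of_nonneg_right (h1a j) (norm_nonneg _))
    linarith
  have hbl : ∀ j, ‖(1 / 2 : ℂ) • (fs j * (1 - b ^ (2 ^ j)))‖ ≤ ‖fs j‖ := by
    intro j
    rw [norm_smul, hhalf]
    have := (norm_mul_le (fs j) (1 - b ^ (2 ^ j))).trans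
      (mul_le_mul_of_nonneg_left (h1b j) (norm_nonneg _))
    linarith
  have hsr : Summable (fun j => (1 / 2 : ℂ) • ((1 - a ^ (2 ^ j)) * fs j)) :=
    Summable.of_norm_bounded hfs hbr
  have hsl : Summable (fun j => (1 / 2 : ℂ) • (fs j * (1 - b ^ (2 ^ j)))) :=
    Summable.of_norm_bounded hfs hbl
  obtain ⟨r, hr⟩ := hsr
  obtain ⟨l, hl⟩ := hsl
  refine ⟨r, l, ?_, ?_, ?_, ?_⟩
  · have h2 := (hr.add hl).tendsto_sum_nat
    have h3 : (fun n => ∑ j ∈ Finset.range n, ((1 / 2 : ℂ) • ((1 - a ^ (2 ^ j)) * fs j)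
        + (1 / 2 : ℂ) • (fs j * (1 - b ^ (2 ^ j))))) = fun n => fs 0 - fs n := by
      funext n
      rw [← Finset.sum_range_sub']
      refine Finset.sum_congr rfl fun j _ => ?_
      rw [hs j]
      exact tele_step2 _ _ _
    rw [h3] at h2
    have h4 : Tendsto (fun n => fs 0 - fs n) atTop (𝓝 (fs 0 - 0)) := by
      refine tendsto_const_nhds.sub ?_
      exact tendsto_zero_iff_norm_tendsto_zero.2 hfs.tendsto_atTop_zero
    rw [sub_zero] at h4
    exact tendsto_nhds_unique h4 h2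
  · have h2 : ∀ n, kap a n * r = ∑' j, kap a n * ((1 / 2 : ℂ) • ((1 - a ^ (2 ^ j)) * fs j)) :=
      fun n => (hr.mul_left _).tsum_eq.symm
    have h3 : Tendsto (fun n => ∑' j, kap a n * ((1 / 2 : ℂ) • ((1 - a ^ (2 ^ j)) * fs j))) atTop
        (𝓝 (∑' _ : ℕ, (0 : A))) := by
      refine tendsto_tsum_of_dominated_convergence hfs (fun j => ?_)
        (Eventually.of_forall fun n j => ?_)
      · refine squeeze_zero_norm (a := fun n : ℕ => 2 * ((2 ^ j : ℕ) : ℝ) * ((n : ℝ) + 1)⁻¹ * ‖fs j‖)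
          (fun n => ?_) ?_
        · rw [mul_smul_comm, ← mul_assoc, norm_smul, hhalf]
          have := (norm_mul_le (kap a n * (1 - a ^ (2 ^ j))) (fs j)).trans
            (mul_le_mul_of_nonneg_right (kap_mul_one_sub ha (2 ^ j) n) (norm_nonneg _))
          have h5 : 0 ≤ ‖kap a n * (1 - a ^ (2 ^ j)) * fs j‖ := norm_nonneg _
          linarith
        · have h6 : Tendsto (fun n : ℕ => ((n : ℝ) + 1)⁻¹) atTop (𝓝 0) := by
            have := tendsto_one_div_add_atTop_nhds_zero_nat (𝕜 := ℝ)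
            simpa [one_div] using this
          have h7 := (h6.const_mul (2 * ((2 ^ j : ℕ) : ℝ))).mul_const ‖fs j‖
          simpa using h7
      · refine (norm_mul_le _ _).trans ?_
        calc ‖kap a n‖ * ‖(1 / 2 : ℂ) • ((1 - a ^ (2 ^ j)) * fs j)‖
            ≤ 1 * ‖fs j‖ := by
              gcongr
              · exact norm_kap ha n
              · exact hbr j
          _ = ‖fs j‖ := one_mul _
    rw [tsum_zero] at h3
    exact h3.congr fun n => (h2 n).symm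
  · have h2 : ∀ n, l * kap b n = ∑' j, ((1 / 2 : ℂ) • (fs j * (1 - b ^ (2 ^ j)))) * kap b n :=
      fun n => (hl.mul_right _).tsum_eq.symm
    have h3 : Tendsto (fun n => ∑' j, ((1 / 2 : ℂ) • (fs j * (1 - b ^ (2 ^ j)))) * kap b n) atTop
        (𝓝 (∑' _ : ℕ, (0 : A))) := by
      refine tendsto_tsum_of_dominated_convergence hfs (fun j => ?_)
        (Eventually.of_forall fun n j => ?_)
      · refine squeeze_zero_norm (a := fun n : ℕ => 2 * ((2 ^ j : ℕ) : ℝ) * ((n : ℝ) + 1)⁻¹ * ‖fs j‖)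
          (fun n => ?_) ?_
        · rw [smul_mul_assoc, mul_assoc, norm_smul, hhalf, ← (commute_kap_pow b (2 ^ j) n).eq]
          have := (norm_mul_le (fs j) (kap b n * (1 - b ^ (2 ^ j)))).trans
            (mul_le_mul_of_nonneg_left (kap_mul_one_sub hb (2 ^ j) n) (norm_nonneg _))
          have h5 : 0 ≤ ‖fs j * (kap b n * (1 - b ^ (2 ^ j)))‖ := norm_nonneg _
          linarith
        · have h6 : Tendsto (fun n : ℕ => ((n : ℝ) + 1)⁻¹) atTop (𝓝 0) := by
            have := tendsto_one_div_add_atTop_nhds_zero_nat (𝕜 := ℝ)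
            simpa [one_div] using this
          have h7 := (h6.const_mul (2 * ((2 ^ j : ℕ) : ℝ))).mul_const ‖fs j‖
          simpa using h7
      · refine (norm_mul_le _ _).trans ?_
        calc ‖(1 / 2 : ℂ) • (fs j * (1 - b ^ (2 ^ j)))‖ * ‖kap b n‖
            ≤ ‖fs j‖ * 1 := by
              gcongr
              · exact hbl j
              · exact norm_kap hb n
          _ = ‖fs j‖ := mul_one _
    rw [tsum_zero] at h3
    exact h3.congr fun n => (h2 n).symm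
  · intro S hS h0 hSl hSr
    have hf : ∀ j, fs j ∈ S := by
      intro j
      induction j with
      | zero => exact h0
      | succ j ih =>
        rw [hs]
        exact S.smul_mem _ (S.add_mem (hSl _ _ ih) (hSr _ _ ih))
    constructor
    · exact hS.mem_of_tendsto hr (Eventually.of_forall fun s =>
        Submodule.sum_mem _ fun j _ => S.smul_mem _ (hSl _ _ (hf j)))
    · exact hS.mem_of_tendsto hl (Eventually.of_forall fun s =>
        Submodule.sum_mem _ fun j _ => S.smul_mem _ (hSr _ _ (hf j)))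

end

end Pool.Agent.H640R3.CD
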