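import Mathlib
import Pool.Agent.H640R3.CD.Two
import Pool.Agent.H640R3.CD.Step

set_option autoImplicit false

/-!
# Elements in the kernels of two characters are sums of two products
-/

namespace Pool.Agent.H640R3.CD

open Filter Topology

noncomputable section

variable {G : Type} [Group G]

/-- the iteration -/
def fseq (a b f : L G) : ℕ → L G
  | 0 => f
  | j + 1 => (1 / 2 : ℂ) • (a ^ (2 ^ j) * fseq a b f j + fseq a b f j * b ^ (2 ^ j))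

/-- the measures -/
def museq (μ : G → ℝ) : ℕ → G → ℝ
  | 0 => μ
  | j + 1 => cv (museq μ j)

lemma museq_prop {μ : G → ℝ} (h0 : ∀ x, 0 ≤ μ x) (h : HasSum μ 1) (j : ℕ) :
    (∀ x, 0 ≤ museq μ j x) ∧ HasSum (museq μ j) 1 := by
  induction j with
  | zero => exact ⟨h0, h⟩
  | succ j ih => exact ⟨cv_nonneg ih.1, (cv_hasSum ih.1 ih.2).1⟩

lemma pow_twist {d : G → ℂ} (hd : ∀ g h, d (g * h) = d g * d h) {μ : G → ℝ}
    (h0 : ∀ x, 0 ≤ μ x) (h : HasSum μ 1) {a : L G}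
    (ha : ∀ x, a x = d x * (μ x : ℂ)) (j : ℕ) :
    ∀ x, (a ^ (2 ^ j)) x = d x * (museq μ j x : ℂ) := by
  induction j with
  | zero =>
    intro x
    rw [pow_zero, pow_one]
    exact ha x
  | succ j ih =>
    intro x
    have e1 : a ^ (2 ^ (j + 1)) = a ^ (2 ^ j) * a ^ (2 ^ j) := by
      rw [← pow_add]
      congr 1
      ring
    rw [e1]
    exact sq_twist hd (museq_prop h0 h j).1 (museq_prop h0 h j).2 ih x

lemma psi_hasSum (ψ : L G →L[ℂ] ℂ) (F : L G) : HasSum (fun s => F s * ψ (e s)) (ψ F) := by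
  have h := (hasSum_e F).mapL ψ
  have h2 : (fun s => ψ (F s • e s)) = fun s => F s * ψ (e s) := by
    funext s
    rw [map_smul, smul_eq_mul]
  rwa [h2] at h

lemma conj_mul_self {z : ℂ} (h : ‖z‖ = 1) : (starRingEnd ℂ) z * z = 1 := by
  rw [mul_comm, Complex.mul_conj, Complex.normSq_eq_norm_sq, h]
  norm_num

theorem fseq_good {d₁ d₂ : G → ℂ} (h₁ : ∀ g, ‖d₁ g‖ = 1) (h₂ : ∀ g, ‖d₂ g‖ = 1)
    (hm₁ : ∀ g h, d₁ (g * h) = d₁ g * d₁ h) (hm₂ : ∀ g h, d₂ (g * h) = d₂ g * d₂ h)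
    {μ : G → ℝ} {a b f : L G} (ha : ∀ x, a x = d₁ x * (μ x : ℂ))
    (hb : ∀ x, b x = d₂ x * (μ x : ℂ)) {Q : ℝ} (hG : Good μ (fun x => f x) Q)
    (hψ : ∀ j, HasSum (fun x => fseq a b f j x * (starRingEnd ℂ) (d₂ x)) 0) (j : ℕ) :
    Good (museq μ j) (fun x => fseq a b f j x) (Q * (1 / 2) ^ j) := by
  induction j with
  | zero =>
    rw [pow_zero, mul_one]
    exact hG
  | succ j ih =>
    have h := step h₁ h₂ (pow_twist hm₁ hG.nonneg hG.sum ha j)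
      (pow_twist hm₂ hG.nonneg hG.sum hb j) ih (hψ j)
    have e1 : Q * (1 / 2) ^ (j + 1) = Q * (1 / 2) ^ j / 2 := by ring
    rw [e1]
    exact h

theorem lemB (ψ₁ ψ₂ : L G →L[ℂ] ℂ) (m₁ : ∀ u v, ψ₁ (u * v) = ψ₁ u * ψ₁ v)
    (m₂ : ∀ u v, ψ₂ (u * v) = ψ₂ u * ψ₂ v) (o₁ : ψ₁ 1 = 1) (o₂ : ψ₂ 1 = 1)
    (n₁ : ∀ g, ‖ψ₁ (e g)‖ = 1) (n₂ : ∀ g, ‖ψ₂ (e g)‖ = 1) (f : L G) (f₁ : ψ₁ f = 0)
    (f₂ : ψ₂ f = 0) :
    ∃ u v u' v' : L G, f = u * v + u' * v' ∧ ψ₁ u = 0 ∧ ψ₂ v = 0 ∧ ψ₁ u' = 0 ∧ ψ₂ v' = 0 := by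
  by_cases hf0 : f = 0
  · refine ⟨0, 0, 0, 0, ?_, map_zero _, map_zero _, map_zero _, map_zero _⟩
    rw [hf0, mul_zero, add_zero]
  have hN : 0 < ‖f‖ := norm_pos_iff.2 hf0
  obtain ⟨d₁, hd₁⟩ : ∃ d : G → ℂ, ∀ g, d g = (starRingEnd ℂ) (ψ₁ (e g)) := ⟨_, fun _ => rfl⟩
  obtain ⟨d₂, hd₂⟩ : ∃ d : G → ℂ, ∀ g, d g = (starRingEnd ℂ) (ψ₂ (e g)) := ⟨_, fun _ => rfl⟩
  have h₁ : ∀ g, ‖d₁ g‖ = 1 := fun g => by rw [hd₁, Complex.norm_conj, n₁]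
  have h₂ : ∀ g, ‖d₂ g‖ = 1 := fun g => by rw [hd₂, Complex.norm_conj, n₂]
  have hm₁ : ∀ g h, d₁ (g * h) = d₁ g * d₁ h := fun g h => by
    rw [hd₁, hd₁, hd₁, ← e_mul_e, m₁, map_mul]
  have hm₂ : ∀ g h, d₂ (g * h) = d₂ g * d₂ h := fun g h => by
    rw [hd₂, hd₂, hd₂, ← e_mul_e, m₂, map_mul]
  obtain ⟨μ, hμ⟩ : ∃ μ : G → ℝ, ∀ x, μ x = ‖f x‖ / ‖f‖ := ⟨_, fun _ => rfl⟩
  have hμ0 : ∀ x, 0 ≤ μ x := fun x => by
    rw [hμ]
    exact div_nonneg (norm_nonneg _) hN.le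
  have hμs : HasSum μ 1 := by
    have h := (norm_hasSum f).div_const ‖f‖
    rw [div_self hN.ne'] at h
    have e1 : μ = fun x => ‖f x‖ / ‖f‖ := funext hμ
    rw [e1]
    exact h
  have hna : ∀ d : G → ℂ, (∀ g, ‖d g‖ = 1) → HasSum (fun x => ‖d x * (μ x : ℂ)‖) 1 := by
    intro d hd
    have e1 : (fun x => ‖d x * (μ x : ℂ)‖) = μ := by
      funext x
      rw [norm_mul, hd, one_mul, Complex.norm_real, Real.norm_eq_abs, abs_of_nonneg (hμ0 x)]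
    rw [e1]
    exact hμs
  obtain ⟨a, ha⟩ : ∃ a : L G, ∀ x, a x = d₁ x * (μ x : ℂ) :=
    ⟨mk _ (hna d₁ h₁).summable, fun x => mk_apply _ _ x⟩
  obtain ⟨b, hb⟩ : ∃ b : L G, ∀ x, b x = d₂ x * (μ x : ℂ) :=
    ⟨mk _ (hna d₂ h₂).summable, fun x => mk_apply _ _ x⟩
  have hna1 : ‖a‖ ≤ 1 := by
    rw [norm_eq]
    have e1 : (fun x => ‖a x‖) = fun x => ‖d₁ x * (μ x : ℂ)‖ := by
      funext x
      rw [ha]
    rw [e1, (hna d₁ h₁).tsum_eq]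
  have hnb1 : ‖b‖ ≤ 1 := by
    rw [norm_eq]
    have e1 : (fun x => ‖b x‖) = fun x => ‖d₂ x * (μ x : ℂ)‖ := by
      funext x
      rw [hb]
    rw [e1, (hna d₂ h₂).tsum_eq]
  have hψa : ψ₁ a = 1 := by
    have h := psi_hasSum ψ₁ a
    have e1 : (fun s => a s * ψ₁ (e s)) = fun s => ((μ s : ℝ) : ℂ) := by
      funext s
      rw [ha, hd₁, mul_comm _ (μ s : ℂ), mul_assoc, conj_mul_self (n₁ s), mul_one]
    rw [e1] at h
    have h' := Complex.hasSum_ofReal.2 hμs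
    have := h.unique h'
    rw [this]
    norm_num
  have hψb : ψ₂ b = 1 := by
    have h := psi_hasSum ψ₂ b
    have e1 : (fun s => b s * ψ₂ (e s)) = fun s => ((μ s : ℝ) : ℂ) := by
      funext s
      rw [hb, hd₂, mul_comm _ (μ s : ℂ), mul_assoc, conj_mul_self (n₂ s), mul_one]
    rw [e1] at h
    have h' := Complex.hasSum_ofReal.2 hμs
    have := h.unique h'
    rw [this]
    norm_num
  have hψf : ∀ j, ψ₂ (fseq a b f j) = 0 := by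
    intro j
    induction j with
    | zero => exact f₂
    | succ j ih =>
      change ψ₂ ((1 / 2 : ℂ) • (a ^ (2 ^ j) * fseq a b f j + fseq a b f j * b ^ (2 ^ j))) = 0
      rw [map_smul, map_add, m₂, m₂, ih, mul_zero, zero_mul, add_zero, smul_zero]
  have hsum : ∀ j, HasSum (fun x => fseq a b f j x * (starRingEnd ℂ) (d₂ x)) 0 := by
    intro j
    have h := psi_hasSum ψ₂ (fseq a b f j)
    rw [hψf j] at h
    have e1 : (fun s => fseq a b f j s * ψ₂ (e s))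
        = fun x => fseq a b f j x * (starRingEnd ℂ) (d₂ x) := by
      funext s
      rw [hd₂, Complex.conj_conj]
    rwa [e1] at h
  have hG : Good μ (fun x => f x) (‖f‖ ^ 2) := by
    refine ⟨hμ0, hμs, fun x => f x / (μ x : ℂ), ?_, ‖f‖ ^ 2, le_rfl, ?_⟩
    · intro x
      by_cases hx : f x = 0
      · simp only [hx]
        simp
      · have : (μ x : ℂ) ≠ 0 := by
          have : μ x ≠ 0 := by
            rw [hμ]
            exact div_ne_zero (norm_ne_zero_iff.2 hx) hN.ne'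
          exact_mod_cast this
        rw [mul_div_cancel₀ _ this]
    · have h := (norm_hasSum f).mul_right ‖f‖
      have e1 : (fun x => μ x * ‖f x / (μ x : ℂ)‖ ^ 2) = fun x => ‖f x‖ * ‖f‖ := by
        funext x
        rw [norm_div, Complex.norm_real, Real.norm_eq_abs, abs_of_nonneg (hμ0 x), hμ]
        by_cases hx : ‖f x‖ = 0
        · rw [hx]
          simp
        · field_simp
      rw [e1, sq]
      exact h
  have hgood := fseq_good h₁ h₂ hm₁ hm₂ ha hb hG hsum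
  have hθ : Real.sqrt (1 / 2) ^ 2 = 1 / 2 := Real.sq_sqrt (by norm_num)
  have hθ1 : Real.sqrt (1 / 2) < 1 := by
    nlinarith [Real.sqrt_nonneg (1 / 2)]
  have hnorm : ∀ j, ‖fseq a b f j‖ ≤ ‖f‖ * Real.sqrt (1 / 2) ^ j := by
    intro j
    have h := (hgood j).norm_sq_le
    have e1 : ‖f‖ ^ 2 * (1 / 2) ^ j = (‖f‖ * Real.sqrt (1 / 2) ^ j) ^ 2 := by
      rw [mul_pow, ← pow_mul, mul_comm j 2, pow_mul, hθ]
    rw [e1] at h
    exact (pow_le_pow_iff_left₀ (norm_nonneg _) (by positivity) two_ne_zero).1 h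
  obtain ⟨r, l, hrl, hr, hl, hS⟩ := two_sided a b hna1 hnb1 (fseq a b f) (fun j => rfl) ‖f‖
    (Real.sqrt (1 / 2)) (Real.sqrt_nonneg _) hθ1 hnorm
  obtain ⟨ρ, y, hy, hρ, hyS⟩ := left_fac a r hna1 hr
  obtain ⟨ρ', y', hy', hρ', hyS'⟩ := right_fac b l hnb1 hl
  have hk₁ : ∀ c, ∀ z ∈ LinearMap.ker (ψ₁ : L G →ₗ[ℂ] ℂ), c * z ∈ LinearMap.ker (ψ₁ : L G →ₗ[ℂ] ℂ) := by
    intro c z hz
    rw [LinearMap.mem_ker] at hz ⊢
    change ψ₁ (c * z) = 0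
    have hz' : ψ₁ z = 0 := hz
    rw [m₁, hz', mul_zero]
  have hk₁' : ∀ c, ∀ z ∈ LinearMap.ker (ψ₁ : L G →ₗ[ℂ] ℂ), z * c ∈ LinearMap.ker (ψ₁ : L G →ₗ[ℂ] ℂ) := by
    intro c z hz
    rw [LinearMap.mem_ker] at hz ⊢
    change ψ₁ (z * c) = 0
    have hz' : ψ₁ z = 0 := hz
    rw [m₁, hz', zero_mul]
  have hk₂ : ∀ c, ∀ z ∈ LinearMap.ker (ψ₂ : L G →ₗ[ℂ] ℂ), c * z ∈ LinearMap.ker (ψ₂ : L G →ₗ[ℂ] ℂ) := by
    intro c z hz
    rw [LinearMap.mem_ker] at hz ⊢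
    change ψ₂ (c * z) = 0
    have hz' : ψ₂ z = 0 := hz
    rw [m₂, hz', mul_zero]
  have hk₂' : ∀ c, ∀ z ∈ LinearMap.ker (ψ₂ : L G →ₗ[ℂ] ℂ), z * c ∈ LinearMap.ker (ψ₂ : L G →ₗ[ℂ] ℂ) := by
    intro c z hz
    rw [LinearMap.mem_ker] at hz ⊢
    change ψ₂ (z * c) = 0
    have hz' : ψ₂ z = 0 := hz
    rw [m₂, hz', zero_mul]
  have hc₁ : IsClosed ((LinearMap.ker (ψ₁ : L G →ₗ[ℂ] ℂ) : Submodule ℂ (L G)) : Set (L G)) :=
    ψ₁.isClosed_ker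
  have hc₂ : IsClosed ((LinearMap.ker (ψ₂ : L G →ₗ[ℂ] ℂ) : Submodule ℂ (L G)) : Set (L G)) :=
    ψ₂.isClosed_ker
  refine ⟨1 - ρ, y, y', 1 - ρ', ?_, ?_, ?_, ?_, ?_⟩
  · rw [← hy, ← hy']
    exact hrl
  · rw [map_sub, o₁, hρ ψ₁ m₁ o₁ hψa, sub_self]
  · have hr2 := (hS _ hc₂ f₂ hk₂ hk₂').1
    exact hyS _ hc₂ hr2 hk₂
  · have hl1 := (hS _ hc₁ f₁ hk₁ hk₁').2
    exact hyS' _ hc₁ hl1 hk₁'
  · rw [map_sub, o₂, hρ' ψ₂ m₂ o₂ hψb, sub_self]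

end

end Pool.Agent.H640R3.CD
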