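import Mathlib

set_option autoImplicit false

/-!
# Two-sided ideals of codimension two in a complex algebra
-/

namespace Pool.Agent.H640R3.CD

section

variable {A : Type} [Ring A] [Algebra ℂ A]

/-- coordinates modulo an ideal of codimension two -/
theorem coords (I : Submodule ℂ A) (h1 : (1 : A) ∉ I)
    (hfin : Module.finrank ℂ (A ⧸ I) = 2) :
    ∃ (x : A) (c d : A →ₗ[ℂ] ℂ), (∀ a, a ∈ I ↔ c a = 0 ∧ d a = 0) ∧ c 1 = 1 ∧ d 1 = 0 ∧
      c x = 0 ∧ d x = 1 := by
  have hv : I.mkQ (1 : A) ≠ 0 := by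
    intro h
    exact h1 ((Submodule.Quotient.mk_eq_zero I).1 h)
  have hx : ∃ w : A ⧸ I, ∀ k : ℂ, k • I.mkQ (1 : A) ≠ w := by
    by_contra hcon
    push Not at hcon
    have := (finrank_eq_one_iff_of_nonzero' (I.mkQ (1 : A)) hv).2 hcon
    omega
  obtain ⟨w, hw⟩ := hx
  obtain ⟨x, rfl⟩ := Submodule.mkQ_surjective I w
  have hli : LinearIndependent ℂ ![I.mkQ x, I.mkQ (1 : A)] := by
    rw [linearIndependent_fin2]
    refine ⟨hv, fun k => ?_⟩
    exact hw k
  have hcard : Fintype.card (Fin 2) = Module.finrank ℂ (A ⧸ I) := by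
    rw [hfin, Fintype.card_fin]
  obtain ⟨B, hB⟩ : ∃ B : Module.Basis (Fin 2) ℂ (A ⧸ I), ⇑B = ![I.mkQ x, I.mkQ (1 : A)] :=
    ⟨basisOfLinearIndependentOfCardEqFinrank hli hcard,
      coe_basisOfLinearIndependentOfCardEqFinrank _ _⟩
  have hB0 : B 0 = I.mkQ x := by rw [hB]; rfl
  have hB1 : B 1 = I.mkQ 1 := by rw [hB]; rfl
  refine ⟨x, (B.coord 1).comp I.mkQ, (B.coord 0).comp I.mkQ, ?_, ?_, ?_, ?_, ?_⟩
  · intro a
    have e1 : a ∈ I ↔ I.mkQ a = 0 := (Submodule.Quotient.mk_eq_zero I).symm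
    rw [e1]
    constructor
    · intro h
      rw [LinearMap.comp_apply, LinearMap.comp_apply, h, map_zero, map_zero]
      exact ⟨rfl, rfl⟩
    · rintro ⟨hc, hd⟩
      rw [LinearMap.comp_apply, Module.Basis.coord_apply] at hc hd
      apply B.repr.injective
      ext i
      fin_cases i
      · simpa using hd
      · simpa using hc
  · rw [LinearMap.comp_apply, ← hB1, Module.Basis.coord_apply]
    simp
  · rw [LinearMap.comp_apply, ← hB1, Module.Basis.coord_apply]
    simp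
  · rw [LinearMap.comp_apply, ← hB0, Module.Basis.coord_apply]
    simp
  · rw [LinearMap.comp_apply, ← hB0, Module.Basis.coord_apply]
    simp

theorem coords_mul (I : Submodule ℂ A) (hl : ∀ a ∈ I, ∀ b, b * a ∈ I)
    (hr : ∀ a ∈ I, ∀ b, a * b ∈ I) (x : A) (c d : A →ₗ[ℂ] ℂ)
    (hI : ∀ a, a ∈ I ↔ c a = 0 ∧ d a = 0) (c1 : c 1 = 1) (d1 : d 1 = 0) (cx : c x = 0)
    (dx : d x = 1) (a b : A) :
    c (a * b) = c a * c b + d a * d b * c (x * x) ∧
      d (a * b) = c a * d b + d a * c b + d a * d b * d (x * x) := by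
  have key : ∀ a, a - (c a • (1 : A) + d a • x) ∈ I := by
    intro a
    rw [hI]
    constructor
    · rw [map_sub, map_add, map_smul, map_smul, c1, cx]
      simp
    · rw [map_sub, map_add, map_smul, map_smul, d1, dx]
      simp
  have h1 : a * b - (c a • (1 : A) + d a • x) * (c b • (1 : A) + d b • x) ∈ I := by
    have e1 : a * b - (c a • (1 : A) + d a • x) * (c b • (1 : A) + d b • x)
        = (a - (c a • (1 : A) + d a • x)) * b
          + (c a • (1 : A) + d a • x) * (b - (c b • (1 : A) + d b • x)) := by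
      noncomm_ring
    rw [e1]
    exact I.add_mem (hr _ (key a) _) (hl _ (key b) _)
  have h2 : (c a • (1 : A) + d a • x) * (c b • (1 : A) + d b • x)
      = (c a * c b) • (1 : A) + (c a * d b + d a * c b) • x + (d a * d b) • (x * x) := by
    rw [add_mul, mul_add, mul_add, smul_mul_smul_comm, smul_mul_smul_comm, smul_mul_smul_comm,
      smul_mul_smul_comm, one_mul, one_mul, mul_one, add_smul]
    abel
  rw [h2, hI] at h1
  obtain ⟨h3, h4⟩ := h1
  constructor
  · rw [map_sub, map_add, map_add, map_smul, map_smul, map_smul, c1, cx, sub_eq_zero] at h3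
    rw [h3]
    simp
  · rw [map_sub, map_add, map_add, map_smul, map_smul, map_smul, d1, dx, sub_eq_zero] at h4
    rw [h4]
    simp

/-- the characters -/
theorem chars (I : Submodule ℂ A) (hl : ∀ a ∈ I, ∀ b, b * a ∈ I)
    (hr : ∀ a ∈ I, ∀ b, a * b ∈ I) (h1 : (1 : A) ∉ I)
    (hfin : Module.finrank ℂ (A ⧸ I) = 2) :
    ∃ ψ₁ ψ₂ : A →ₗ[ℂ] ℂ, (∀ a b, ψ₁ (a * b) = ψ₁ a * ψ₁ b) ∧ (∀ a b, ψ₂ (a * b) = ψ₂ a * ψ₂ b)
      ∧ ψ₁ 1 = 1 ∧ ψ₂ 1 = 1 ∧ (∀ a ∈ I, ψ₁ a = 0) ∧ (∀ a ∈ I, ψ₂ a = 0) ∧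
      ((ψ₁ = ψ₂ ∧ (∃ y, ψ₁ y = 0 ∧ y ∉ I) ∧ (∀ u v, ψ₁ u = 0 → ψ₁ v = 0 → u * v ∈ I)) ∨
        ((∃ u, ψ₁ u = 1 ∧ ψ₂ u = 0) ∧ ∀ a, ψ₁ a = 0 → ψ₂ a = 0 → a ∈ I)) := by
  obtain ⟨x, c, d, hI, c1, d1, cx, dx⟩ := coords I h1 hfin
  have hm := coords_mul I hl hr x c d hI c1 d1 cx dx
  obtain ⟨β, hβ⟩ : ∃ β, β = c (x * x) := ⟨_, rfl⟩
  obtain ⟨α, hα⟩ : ∃ α, α = d (x * x) := ⟨_, rfl⟩
  rw [← hβ, ← hα] at hm
  obtain ⟨δ, hδ⟩ := IsAlgClosed.exists_eq_mul_self (α * α + 4 * β)
  obtain ⟨r, hr'⟩ : ∃ r, r = (α + δ) / 2 := ⟨_, rfl⟩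
  obtain ⟨s, hs'⟩ : ∃ s, s = (α - δ) / 2 := ⟨_, rfl⟩
  have hrs : r + s = α := by rw [hr', hs']; ring
  have hrr : r * r = α * r + β := by
    rw [hr']
    linear_combination (1 / 4 : ℂ) * hδ.symm
  have hss : s * s = α * s + β := by
    rw [hs']
    linear_combination (1 / 4 : ℂ) * hδ.symm
  have hψ : ∀ t : ℂ, t * t = α * t + β → ∀ a b,
      (c + t • d) (a * b) = (c + t • d) a * (c + t • d) b := by
    intro t ht a b
    rw [LinearMap.add_apply, LinearMap.add_apply, LinearMap.add_apply, LinearMap.smul_apply,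
      LinearMap.smul_apply, LinearMap.smul_apply, (hm a b).1, (hm a b).2, smul_eq_mul,
      smul_eq_mul, smul_eq_mul]
    linear_combination (-(d a * d b)) * ht
  have hone : ∀ t : ℂ, (c + t • d) 1 = 1 := by
    intro t
    rw [LinearMap.add_apply, LinearMap.smul_apply, c1, d1, smul_zero, add_zero]
  have hker : ∀ t : ℂ, ∀ a ∈ I, (c + t • d) a = 0 := by
    intro t a ha
    rw [LinearMap.add_apply, LinearMap.smul_apply, ((hI a).1 ha).1, ((hI a).1 ha).2, smul_zero,
      add_zero]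
  refine ⟨c + r • d, c + s • d, hψ r hrr, hψ s hss, hone r, hone s, hker r, hker s, ?_⟩
  by_cases hrs' : r = s
  · left
    refine ⟨by rw [hrs'], ⟨x - r • 1, ?_, ?_⟩, ?_⟩
    · rw [LinearMap.add_apply, LinearMap.smul_apply, map_sub, map_sub, map_smul, map_smul, c1,
        d1, cx, dx]
      simp
    · rw [hI]
      rintro ⟨-, h⟩
      rw [map_sub, map_smul, dx, d1] at h
      simp at h
    · intro u v hu hv
      rw [LinearMap.add_apply, LinearMap.smul_apply, smul_eq_mul] at hu hv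
      rw [hI, (hm u v).1, (hm u v).2]
      have hcu : c u = - (r * d u) := by linear_combination hu
      have hcv : c v = - (r * d v) := by linear_combination hv
      have hα2 : α = 2 * r := by rw [← hrs, ← hrs']; ring
      have hβ2 : β = - (r * r) := by
        rw [hα2] at hrr
        linear_combination -hrr
      constructor
      · rw [hcu, hcv, hβ2]
        ring
      · rw [hcu, hcv, hα2]
        ring
  · right
    have hne : r - s ≠ 0 := sub_ne_zero.2 hrs'
    refine ⟨⟨(r - s)⁻¹ • (x - s • 1), ?_, ?_⟩, ?_⟩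
    · rw [LinearMap.add_apply, LinearMap.smul_apply, map_smul, map_smul, map_sub, map_sub,
        map_smul, map_smul, c1, d1, cx, dx]
      simp only [smul_eq_mul]
      field_simp
      ring
    · rw [LinearMap.add_apply, LinearMap.smul_apply, map_smul, map_smul, map_sub, map_sub,
        map_smul, map_smul, c1, d1, cx, dx]
      simp only [smul_eq_mul]
      field_simp
      ring
    · intro a ha hb
      rw [LinearMap.add_apply, LinearMap.smul_apply, smul_eq_mul] at ha hb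
      have hd0 : (r - s) * d a = 0 := by linear_combination ha - hb
      have hd : d a = 0 := by
        rcases mul_eq_zero.1 hd0 with h | h
        · exact absurd h hne
        · exact h
      rw [hI]
      refine ⟨?_, hd⟩
      rw [hd, mul_zero, add_zero] at ha
      exact ha

end

end Pool.Agent.H640R3.CD
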