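import Mathlib
import Pool.Agent.H640R3.CD.LemB
import Pool.Agent.H640R3.CD.Quot2

set_option autoImplicit false

/-!
# Ideals of codimension two in the convolution algebra of a discrete group are idempotent
-/

namespace Pool.Agent.H640R3.CD

open Filter Topology

noncomputable section

variable {G : Type} [Group G]

/-- every character of the convolution algebra is continuous and of modulus one on the group -/
theorem char_cont (ψ : L G →ₗ[ℂ] ℂ) (m : ∀ u v, ψ (u * v) = ψ u * ψ v) (o : ψ 1 = 1) :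
    ∃ ψ' : L G →L[ℂ] ℂ, (∀ a, ψ' a = ψ a) ∧ ∀ g, ‖ψ' (e g)‖ = 1 := by
  obtain ⟨φ, hφ⟩ : ∃ φ : L G →ₐ[ℂ] ℂ, ∀ a, φ a = ψ a := ⟨AlgHom.ofLinearMap ψ o m, fun a => rfl⟩
  have hb : ∀ a, ‖ψ a‖ ≤ ‖a‖ := fun a => by
    rw [← hφ]
    exact AlgHom.norm_apply_le_self φ a
  refine ⟨LinearMap.mkContinuous ψ 1 (fun a => by rw [one_mul]; exact hb a), fun a => rfl, ?_⟩
  intro g
  change ‖ψ (e g)‖ = 1
  have h1 : ‖ψ (e g)‖ ≤ 1 := by
    have := hb (e g)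
    rwa [norm_e] at this
  have h2 : ‖ψ (e g⁻¹)‖ ≤ 1 := by
    have := hb (e g⁻¹)
    rwa [norm_e] at this
  have h3 : ψ (e g) * ψ (e g⁻¹) = 1 := by
    rw [← m, e_mul_e, mul_inv_cancel, ← one_def, o]
  have h4 : ‖ψ (e g)‖ * ‖ψ (e g⁻¹)‖ = 1 := by
    rw [← norm_mul, h3, norm_one]
  refine le_antisymm h1 ?_
  rw [← h4]
  calc ‖ψ (e g)‖ * ‖ψ (e g⁻¹)‖ ≤ ‖ψ (e g)‖ * 1 :=
        mul_le_mul_of_nonneg_left h2 (norm_nonneg _)
    _ = ‖ψ (e g)‖ := mul_one _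

/-- the linear span of the products of pairs of elements -/
def sqI (I : Submodule ℂ (L G)) : Submodule ℂ (L G) :=
  Submodule.span ℂ {h : L G | ∃ a ∈ I, ∃ b ∈ I, h = a * b}

theorem mem_sqI {I : Submodule ℂ (L G)} {a b : L G} (ha : a ∈ I) (hb : b ∈ I) :
    a * b ∈ sqI I := Submodule.subset_span ⟨a, ha, b, hb, rfl⟩

theorem idem (I : Submodule ℂ (L G)) (hl : ∀ a ∈ I, ∀ b, b * a ∈ I)
    (hr : ∀ a ∈ I, ∀ b, a * b ∈ I) (hfin : Module.finrank ℂ (L G ⧸ I) = 2) :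
    sqI I = I := by
  have h1 : (1 : L G) ∉ I := by
    intro h
    have htop : I = ⊤ := by
      rw [eq_top_iff]
      intro a _
      have := hl 1 h a
      rwa [mul_one] at this
    have : Subsingleton (L G ⧸ I) := by
      refine ⟨fun x y => ?_⟩
      obtain ⟨a, rfl⟩ := Submodule.mkQ_surjective I x
      obtain ⟨b, rfl⟩ := Submodule.mkQ_surjective I y
      rw [← sub_eq_zero, ← map_sub]
      refine (Submodule.Quotient.mk_eq_zero I).2 ?_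
      rw [htop]
      exact Submodule.mem_top
    rw [Module.finrank_zero_of_subsingleton] at hfin
    omega
  apply le_antisymm
  · refine Submodule.span_le.2 ?_
    rintro h ⟨a, ha, b, hb, rfl⟩
    exact hr a ha b
  obtain ⟨ψ₁, ψ₂, m₁, m₂, o₁, o₂, k₁, k₂, hcase⟩ := chars I hl hr h1 hfin
  obtain ⟨φ₁, hφ₁, n₁⟩ := char_cont ψ₁ m₁ o₁
  obtain ⟨φ₂, hφ₂, n₂⟩ := char_cont ψ₂ m₂ o₂
  have mφ₁ : ∀ u v, φ₁ (u * v) = φ₁ u * φ₁ v := fun u v => by rw [hφ₁, hφ₁, hφ₁, m₁]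
  have mφ₂ : ∀ u v, φ₂ (u * v) = φ₂ u * φ₂ v := fun u v => by rw [hφ₂, hφ₂, hφ₂, m₂]
  have oφ₁ : φ₁ 1 = 1 := by rw [hφ₁, o₁]
  have oφ₂ : φ₂ 1 = 1 := by rw [hφ₂, o₂]
  rcases hcase with ⟨-, ⟨y, hy, hyI⟩, hsq⟩ | ⟨⟨u, hu1, hu2⟩, hker⟩
  · exfalso
    obtain ⟨p, q, p', q', hf, hp, hq, hp', hq'⟩ := lemB φ₁ φ₁ mφ₁ mφ₁ oφ₁ oφ₁ n₁ n₁ y
      (by rw [hφ₁, hy]) (by rw [hφ₁, hy])
    apply hyI
    rw [hf]
    rw [hφ₁] at hp hq hp' hq'
    exact I.add_mem (hsq _ _ hp hq) (hsq _ _ hp' hq')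
  · obtain ⟨v, hv⟩ : ∃ v, v = 1 - u := ⟨_, rfl⟩
    have hv1 : ψ₁ v = 0 := by rw [hv, map_sub, o₁, hu1, sub_self]
    have hv2 : ψ₂ v = 1 := by rw [hv, map_sub, o₂, hu2, sub_zero]
    intro i hi
    -- left multiplication by u sends the kernel of the first character into I
    have hu_l : ∀ a, ψ₁ a = 0 → u * a ∈ I := fun a ha =>
      hker _ (by rw [m₁, ha, mul_zero]) (by rw [m₂, hu2, zero_mul])
    have hu_r : ∀ a, ψ₁ a = 0 → a * u ∈ I := fun a ha =>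
      hker _ (by rw [m₁, ha, zero_mul]) (by rw [m₂, hu2, mul_zero])
    have hv_l : ∀ a, ψ₂ a = 0 → v * a ∈ I := fun a ha =>
      hker _ (by rw [m₁, hv1, zero_mul]) (by rw [m₂, ha, mul_zero])
    have hv_r : ∀ a, ψ₂ a = 0 → a * v ∈ I := fun a ha =>
      hker _ (by rw [m₁, hv1, mul_zero]) (by rw [m₂, ha, zero_mul])
    have hsplit : i = u * i * u + u * i * v + v * i * u + v * i * v := by
      rw [hv]
      noncomm_ring
    have e1 : u * i * u ∈ sqI I := by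
      obtain ⟨p, q, p', q', hf, hp, hq, hp', hq'⟩ := lemB φ₁ φ₁ mφ₁ mφ₁ oφ₁ oφ₁ n₁ n₁ i
        (by rw [hφ₁, k₁ i hi]) (by rw [hφ₁, k₁ i hi])
      rw [hφ₁] at hp hq hp' hq'
      have e2 : u * i * u = (u * p) * (q * u) + (u * p') * (q' * u) := by
        rw [hf]
        noncomm_ring
      rw [e2]
      exact (sqI I).add_mem (mem_sqI (hu_l p hp) (hu_r q hq)) (mem_sqI (hu_l p' hp') (hu_r q' hq'))
    have e3 : u * i * v ∈ sqI I := by
      obtain ⟨p, q, p', q', hf, hp, hq, hp', hq'⟩ := lemB φ₁ φ₂ mφ₁ mφ₂ oφ₁ oφ₂ n₁ n₂ i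
        (by rw [hφ₁, k₁ i hi]) (by rw [hφ₂, k₂ i hi])
      rw [hφ₁] at hp hp'
      rw [hφ₂] at hq hq'
      have e2 : u * i * v = (u * p) * (q * v) + (u * p') * (q' * v) := by
        rw [hf]
        noncomm_ring
      rw [e2]
      exact (sqI I).add_mem (mem_sqI (hu_l p hp) (hv_r q hq)) (mem_sqI (hu_l p' hp') (hv_r q' hq'))
    have e4 : v * i * u ∈ sqI I := by
      obtain ⟨p, q, p', q', hf, hp, hq, hp', hq'⟩ := lemB φ₂ φ₁ mφ₂ mφ₁ oφ₂ oφ₁ n₂ n₁ i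
        (by rw [hφ₂, k₂ i hi]) (by rw [hφ₁, k₁ i hi])
      rw [hφ₂] at hp hp'
      rw [hφ₁] at hq hq'
      have e2 : v * i * u = (v * p) * (q * u) + (v * p') * (q' * u) := by
        rw [hf]
        noncomm_ring
      rw [e2]
      exact (sqI I).add_mem (mem_sqI (hv_l p hp) (hu_r q hq)) (mem_sqI (hv_l p' hp') (hu_r q' hq'))
    have e5 : v * i * v ∈ sqI I := by
      obtain ⟨p, q, p', q', hf, hp, hq, hp', hq'⟩ := lemB φ₂ φ₂ mφ₂ mφ₂ oφ₂ oφ₂ n₂ n₂ i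
        (by rw [hφ₂, k₂ i hi]) (by rw [hφ₂, k₂ i hi])
      rw [hφ₂] at hp hq hp' hq'
      have e2 : v * i * v = (v * p) * (q * v) + (v * p') * (q' * v) := by
        rw [hf]
        noncomm_ring
      rw [e2]
      exact (sqI I).add_mem (mem_sqI (hv_l p hp) (hv_r q hq)) (mem_sqI (hv_l p' hp') (hv_r q' hq'))
    rw [hsplit]
    exact (sqI I).add_mem ((sqI I).add_mem ((sqI I).add_mem e1 e3) e4) e5

end

end Pool.Agent.H640R3.CD
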